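import Pool.Agent.Helper70.Fr13
import Pool.Agent.Helper70.FrDefs

/-!
# MP_de6572_pr, Q1: disproof

There are a probability measure `μ` on `[0,∞)` and a fitness function `f ≥ 1` with infinite
Malthusian parameter (and `ℓ = 1`) such that, with positive probability, the proportion of leaves of
the `(μ,f,1)`-recursive tree is at most `1 - 1/16384` at infinitely many times. In particular it
does not converge to `1 = μ([0,∞))`, so the assertion of Q1 is false.
-/

open MeasureTheory Filter Topology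
open scoped ENNReal NNReal

namespace Pool.Agent.Results.MP_de6572_pr.LeafDensityFails

open Pool.Agent.Helper70.FRT

theorem result :
    ¬ LeafConvergence ∧
    ∃ (μ : Measure ℝ≥0) (_ : IsProbabilityMeasure μ) (f : ℕ → ℝ≥0 → ℝ≥0),
      (∀ i, Measurable (f i)) ∧ (∀ i w, 1 ≤ f i w) ∧ alpha μ f 1 = ∞ ∧
      0 < law μ {ω | ∃ᶠ t : ℕ in atTop,
        (leaves f 1 ω.1 ω.2 t Set.univ : ℝ) / t ≤ 1 - 1 / 16384} :=
  ⟨Pool.Agent.Helper70.Fr.not_leafConvergence,
    Pool.Agent.Helper70.Fr.mu0, inferInstance, Pool.Agent.Helper70.Fr.f0,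
    Pool.Agent.Helper70.Fr.f0_measurable, Pool.Agent.Helper70.Fr.f0_ge,
    Pool.Agent.Helper70.Fr.alpha_eq_top, Pool.Agent.Helper70.Fr.main⟩

end Pool.Agent.Results.MP_de6572_pr.LeafDensityFails
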